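import Pool.Agent.Helper69.AS.St

/-!
# Project AS, module FL: flatness from a small mean value defect
-/

set_option autoImplicit false

open Filter Topology Matrix Set MeasureTheory
open scoped ENNReal ComplexOrder

namespace Pool.Agent.Helper28.AS

open Pool.Agent.Helper35.PM Pool.Agent.Helper69.AS

private theorem vol_ball (c : ℂ) (r : ℝ) (hr : 0 ≤ r) :
    volume.real (Metric.ball c r) = r ^ 2 * Real.pi := by
  rw [measureReal_def, Complex.volume_ball, ENNReal.toReal_mul, ENNReal.toReal_pow,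
    ENNReal.toReal_ofReal hr]
  rfl

private theorem closed_sub (c : ℂ) (r : ℝ) (h : ‖c‖ + r < 1) :
    Metric.closedBall c r ⊆ Metric.ball (0 : ℂ) 1 := by
  intro z hz
  rw [Metric.mem_closedBall, dist_eq_norm] at hz
  rw [Metric.mem_ball, dist_zero_right]
  calc ‖z‖ = ‖(z - c) + c‖ := by rw [sub_add_cancel]
    _ ≤ ‖z - c‖ + ‖c‖ := norm_add_le _ _
    _ < 1 := by linarith

/-- module FL -/
theorem hFL (hRA2 : St_RA2) (hMV : StMV) : StFL := by
  intro u j hP s hs0 hs1
  have hc : ContinuousOn u (Metric.ball 0 1) := hRA2 u j hP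
  obtain ⟨-, hG⟩ := hP
  have hint : ∀ (c : ℂ) (r : ℝ), ‖c‖ + r < 1 → IntegrableOn u (Metric.ball c r) := by
    intro c r h
    refine IntegrableOn.mono_set ?_ Metric.ball_subset_closedBall
    exact ContinuousOn.integrableOn_compact (isCompact_closedBall c r)
      (hc.mono (closed_sub c r h))
  have hcm : ∀ (c : ℂ) (r : ℝ), 0 < r → ‖c‖ + r < 1 → c ∈ Metric.ball (0 : ℂ) 1 := by
    intro c r hr h
    exact closed_sub c r h (Metric.mem_closedBall_self hr.le)
  have hmean : ∀ (c : ℂ) (r : ℝ), 0 < r → ‖c‖ + r < 1 →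
      (⨍ ζ in Metric.ball c r, u ζ) ≤ u c := by
    intro c r hr h
    obtain ⟨G, hGd, hGu, hGc⟩ := hG c (hcm c r hr h)
    obtain ⟨hi, hv⟩ := hMV G hGd c r hr h
    rw [← hGc, ← hv, setAverage_eq, setAverage_eq]
    refine smul_le_smul_of_nonneg_left ?_ (by positivity)
    refine setIntegral_mono_on (hint c r h) hi measurableSet_ball fun z hz => ?_
    exact (hGu z (closed_sub c r h (Metric.ball_subset_closedBall hz))).2
  refine ⟨fun c r hr h => ⟨hint c r h, hmean c r hr h⟩, ?_, ?_⟩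
  · have := hmean 0 s hs0 (by simpa using hs1)
    unfold df
    linarith
  · intro σ hσ0 hσs
    obtain ⟨G, hGd, hGu, hG0⟩ := hG 0 (Metric.mem_ball_self one_pos)
    refine ⟨G, hGd, hG0, fun ζ hζ => ?_⟩
    have h0s : ‖(0 : ℂ)‖ + s < 1 := by simpa using hs1
    have hr : 0 < s - σ := by linarith
    have hζs : ‖ζ‖ + (s - σ) < 1 := by linarith
    have hsub : Metric.ball ζ (s - σ) ⊆ Metric.ball (0 : ℂ) s := by
      intro z hz
      rw [Metric.mem_ball, dist_eq_norm] at hz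
      rw [Metric.mem_ball, dist_zero_right]
      calc ‖z‖ = ‖(z - ζ) + ζ‖ := by rw [sub_add_cancel]
        _ ≤ ‖z - ζ‖ + ‖ζ‖ := norm_add_le _ _
        _ < s := by linarith
    refine ⟨(hGu ζ (hcm ζ (s - σ) hr hζs)).2, ?_⟩
    obtain ⟨i1, v1⟩ := hMV G hGd ζ (s - σ) hr hζs
    obtain ⟨i2, v2⟩ := hMV G hGd 0 s hs0 h0s
    have u1 := hint ζ (s - σ) hζs
    have u2 := hint 0 s h0s
    have m1 := hmean ζ (s - σ) hr hζs
    rw [setAverage_eq, vol_ball ζ (s - σ) hr.le, smul_eq_mul] at v1 m1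
    rw [setAverage_eq, vol_ball 0 s hs0.le, smul_eq_mul] at v2
    have hdf : df s u = u 0 - (s ^ 2 * Real.pi)⁻¹ * ∫ z in Metric.ball (0 : ℂ) s, u z := by
      unfold df
      rw [setAverage_eq, vol_ball 0 s hs0.le, smul_eq_mul]
    have hmono : ∫ z in Metric.ball ζ (s - σ), ((G z).re - u z)
        ≤ ∫ z in Metric.ball (0 : ℂ) s, ((G z).re - u z) := by
      refine setIntegral_mono_set (i2.sub u2) ?_ (HasSubset.Subset.eventuallyLE hsub)
      refine (ae_restrict_iff' measurableSet_ball).mpr (Eventually.of_forall fun z hz => ?_)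
      have := (hGu z (closed_sub 0 s h0s (Metric.ball_subset_closedBall hz))).2
      show (0 : ℝ) ≤ (G z).re - u z
      linarith
    rw [integral_sub i1 u1, integral_sub i2 u2] at hmono
    have hpi := Real.pi_pos
    have hp1 : 0 < (s - σ) ^ 2 * Real.pi := by positivity
    have hp2 : 0 < s ^ 2 * Real.pi := by positivity
    obtain ⟨A, hA⟩ : ∃ A, A = ∫ z in Metric.ball ζ (s - σ), (G z).re := ⟨_, rfl⟩
    obtain ⟨B, hB⟩ : ∃ B, B = ∫ z in Metric.ball ζ (s - σ), u z := ⟨_, rfl⟩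
    obtain ⟨A2, hA2⟩ : ∃ A, A = ∫ z in Metric.ball (0 : ℂ) s, (G z).re := ⟨_, rfl⟩
    obtain ⟨B2, hB2⟩ : ∃ B, B = ∫ z in Metric.ball (0 : ℂ) s, u z := ⟨_, rfl⟩
    rw [← hA] at v1 hmono
    rw [← hB] at m1 hmono
    rw [← hA2] at v2 hmono
    rw [← hB2] at hdf hmono
    have e1 : A = (s - σ) ^ 2 * Real.pi * (G ζ).re := by
      rw [← v1]
      field_simp
    have e2 : A2 = s ^ 2 * Real.pi * u 0 := by
      rw [← hG0, ← v2]
      field_simp
    have e3 : B ≤ (s - σ) ^ 2 * Real.pi * u ζ := by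
      have := mul_le_mul_of_nonneg_left m1 hp1.le
      rwa [← mul_assoc, mul_inv_cancel₀ hp1.ne', one_mul] at this
    have e4 : s ^ 2 * Real.pi * df s u = A2 - B2 := by
      rw [hdf, mul_sub, ← mul_assoc, mul_inv_cancel₀ hp2.ne', one_mul, e2]
    have e5 : (s - σ) ^ 2 * Real.pi * ((G ζ).re - u ζ) ≤ s ^ 2 * Real.pi * df s u := by
      rw [e4]
      have : (s - σ) ^ 2 * Real.pi * ((G ζ).re - u ζ)
          = A - (s - σ) ^ 2 * Real.pi * u ζ := by rw [e1]; ring
      rw [this]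
      linarith
    have e6 : (s / (s - σ)) ^ 2 * df s u
        = (s ^ 2 * Real.pi * df s u) / ((s - σ) ^ 2 * Real.pi) := by
      field_simp
    rw [e6, le_div_iff₀ hp1]
    linarith

end Pool.Agent.Helper28.AS
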